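import Pool.Agent.H56.LVP.ST

/-!
# LO: changing the good lines a little (helper56)
-/

set_option autoImplicit false

open Finset MeasureTheory

namespace Pool.Agent.H56.LVP

open Pool.Agent.H24.CL Pool.Agent.H24.LV

theorem pf_LO (hST : L_ST) : L_LO := by
  classical
  intro k S V Gd Gd' ν hk hν hS hV hG hG' hinv hinv' hsub
  have hν0 : (0 : ℝ) ≤ ν := zero_le_one.trans hν
  have hD := DS_pos hS
  have hDr : (0 : ℝ) < DS S := by exact_mod_cast hD
  -- the estimate for one prime
  have one : ∀ p ∈ S, ∀ x < DS S, (DS S : ℝ) ^ (KN k - k) * volume.real {b : X k |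
      Star S V (Function.update Gd p (Gd p \ Gd' p)) b x} ≤
      ν ^ (S.card - 1) * ((p : ℝ) ^ (KN k - k) * volume.real (Gd p \ Gd' p)) := by
    intro p hp x hx
    set Gp : ℕ → Set (X k) := Function.update Gd p (Gd p \ Gd' p) with hGp
    have hself : Gp p = Gd p \ Gd' p := Function.update_self _ _ _
    have hle : ∀ q, Gp q ⊆ Gd q := by
      intro q
      by_cases hq : q = p
      · subst hq
        rw [hself]
        exact Set.diff_subset
      · rw [hGp, Function.update_of_ne hq]
    obtain ⟨G, hGm, hGb, h1, h2⟩ := hST k S V Gp ν hk hν hS hV (by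
      intro q hq
      by_cases hqp : q = p
      · subst hqp
        rw [hself]
        exact (hG q hq).diff (hG' q hq)
      · rw [hGp, Function.update_of_ne hqp]
        exact hG q hq) (by
      intro q hq
      by_cases hqp : q = p
      · subst hqp
        rw [hself]
        intro a ha h hh
        refine ⟨hinv q hq a ha.1 h hh, fun hc => ha.2 ?_⟩
        have := hinv' q hq _ hc (-h) (neg_mem hh)
        rwa [add_neg_cancel_right] at this
      · rw [hGp, Function.update_of_ne hqp]
        exact hinv q hq) (by
      intro q hq Y hY hY1 hY2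
      exact (hsub q hq).2 Y (fun y hy => hle q (hY y hy)) hY1 hY2)
    have h3 := h2 S subset_rfl x hx
    rw [h3]
    have hxp : x / (DS S / p) < p := by
      have h5 := (DS_div hS hp).1
      rw [Nat.div_lt_iff_lt_mul, h5]
      · exact hx
      · rcases Nat.eq_zero_or_pos (DS S / p) with h0 | h0
        · rw [h0, mul_zero] at h5
          omega
        · exact h0
    have h4 := h1 p hp (x / (DS S / p)) hxp (fun _ => 1) 1 measurable_const (by
      intro a
      simp)
    simp only [one_mul] at h4
    rw [setIntegral_const, smul_eq_mul, mul_one, hself] at h4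
    rw [h4]
    have hint : ∀ q y, Integrable (G q y) (volume : Measure (X k)) := by
      intro q y
      refine Integrable.of_bound (hGm q y).aestronglyMeasurable ν ?_
      refine Filter.Eventually.of_forall fun w => ?_
      rw [Real.norm_eq_abs, abs_of_nonneg (hGb q y w).1]
      exact (hGb q y w).2
    have h6 : ∀ w, ∏ q ∈ S, G q (x / (DS S / q)) w ≤
        ν ^ (S.card - 1) * G p (x / (DS S / p)) w := by
      intro w
      rw [← Finset.mul_prod_erase S _ hp, mul_comm, ← Finset.card_erase_of_mem hp,
        ← Finset.prod_const]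
      refine mul_le_mul_of_nonneg_right ?_ (hGb _ _ _).1
      exact Finset.prod_le_prod (fun q _ => (hGb _ _ _).1) (fun q _ => (hGb _ _ _).2)
    calc ∫ w in V, ∏ q ∈ S, G q (x / (DS S / q)) w
        ≤ ∫ w in V, ν ^ (S.card - 1) * G p (x / (DS S / p)) w := by
          refine integral_mono_of_nonneg ?_ ?_ (Filter.Eventually.of_forall h6)
          · exact Filter.Eventually.of_forall fun w => Finset.prod_nonneg fun q _ => (hGb _ _ _).1
          · exact ((hint _ _).const_mul _).integrableOn
      _ = ν ^ (S.card - 1) * ∫ w in V, G p (x / (DS S / p)) w := integral_const_mul _ _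
      _ ≤ _ := by
          refine mul_le_mul_of_nonneg_left ?_ (pow_nonneg hν0 _)
          exact setIntegral_le_integral (hint _ _)
            (Filter.Eventually.of_forall fun w => (hGb _ _ _).1)
  -- all cells
  have cell : ∀ x ∈ range (DS S), (DS S : ℝ) ^ (KN k - k) * volume.real {b : X k |
      Star S V Gd b x} ≤ (DS S : ℝ) ^ (KN k - k) * volume.real {b : X k | Star S V Gd' b x} +
      ν ^ (S.card - 1) * ∑ p ∈ S, (p : ℝ) ^ (KN k - k) * volume.real (Gd p \ Gd' p) := by
    intro x hx
    have hsub2 : {b : X k | Star S V Gd b x} ⊆ {b : X k | Star S V Gd' b x} ∪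
        ⋃ p ∈ S, {b : X k | Star S V (Function.update Gd p (Gd p \ Gd' p)) b x} := by
      intro b hb
      by_cases hall : ∀ p ∈ S, phi (DS S / p) (x % (DS S / p)) b ∈ Gd' p
      · exact Or.inl ⟨hb.1, hall⟩
      · push Not at hall
        obtain ⟨p, hp, hpn⟩ := hall
        refine Or.inr (Set.mem_iUnion₂.2 ⟨p, hp, hb.1, fun q hq => ?_⟩)
        by_cases hqp : q = p
        · subst hqp
          rw [Function.update_self]
          exact ⟨hb.2 q hq, hpn⟩
        · rw [Function.update_of_ne hqp]
          exact hb.2 q hq
    have h1 : volume.real {b : X k | Star S V Gd b x} ≤ volume.real {b : X k | Star S V Gd' b x} +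
        ∑ p ∈ S, volume.real {b : X k | Star S V (Function.update Gd p (Gd p \ Gd' p)) b x} := by
      refine (measureReal_mono hsub2 (measure_ne_top _ _)).trans ?_
      refine (measureReal_union_le _ _).trans ?_
      exact add_le_add le_rfl (measureReal_biUnion_finset_le S _)
    calc _ ≤ (DS S : ℝ) ^ (KN k - k) * (volume.real {b : X k | Star S V Gd' b x} +
        ∑ p ∈ S, volume.real {b : X k | Star S V (Function.update Gd p (Gd p \ Gd' p)) b x}) :=
          mul_le_mul_of_nonneg_left h1 (by positivity)
      _ = (DS S : ℝ) ^ (KN k - k) * volume.real {b : X k | Star S V Gd' b x} +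
          ∑ p ∈ S, (DS S : ℝ) ^ (KN k - k) * volume.real {b : X k |
            Star S V (Function.update Gd p (Gd p \ Gd' p)) b x} := by
          rw [mul_add, Finset.mul_sum]
      _ ≤ _ := by
          rw [Finset.mul_sum]
          exact add_le_add le_rfl
            (Finset.sum_le_sum fun p hp => one p hp x (Finset.mem_range.1 hx))
  unfold mass
  have e1 : ∀ Gd : ℕ → Set (X k), (DS S : ℝ) ^ (KN k - k) * ((1 / (DS S : ℝ)) *
      ∑ x ∈ range (DS S), volume.real {b : X k | Star S V Gd b x}) =
      (1 / (DS S : ℝ)) * ∑ x ∈ range (DS S), (DS S : ℝ) ^ (KN k - k) *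
        volume.real {b : X k | Star S V Gd b x} := by
    intro Gd
    rw [← Finset.mul_sum]
    ring
  rw [e1, e1]
  have e2 := Finset.sum_le_sum cell
  rw [Finset.sum_add_distrib, Finset.sum_const, Finset.card_range, nsmul_eq_mul] at e2
  have e3 : (0 : ℝ) ≤ 1 / (DS S : ℝ) := by positivity
  refine (mul_le_mul_of_nonneg_left e2 e3).trans (le_of_eq ?_)
  rw [mul_add]
  congr 1
  field_simp

end Pool.Agent.H56.LVP
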