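import Pool.Agent.H24.LV.Targets
import Pool.Agent.H24.CL.Base

/-!
# SC: a measurable section (helper56)
-/

set_option autoImplicit false

open Finset MeasureTheory

namespace Pool.Agent.H56.LVP

open Pool.Agent.H24.CL Pool.Agent.H24.LV

theorem phi_diag {k : ℕ} (D x : ℕ) (a : X k) (i : Fin k) :
    phi D x a i = (D ^ (i.val + 1)) • (phi 1 x a i) := by
  show (∑ j : Fin k, (Nat.choose (j.val + 1) (i.val + 1) * x ^ (j.val - i.val) *
    D ^ (i.val + 1)) • a j) = (D ^ (i.val + 1)) • (∑ j : Fin k, (Nat.choose (j.val + 1) (i.val + 1) *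
      x ^ (j.val - i.val) * 1 ^ (i.val + 1)) • a j)
  rw [Finset.smul_sum]
  refine Finset.sum_congr rfl fun j _ => ?_
  rw [← mul_smul]
  congr 1
  ring

/-- a measurable division by `m` on the circle -/
theorem exists_div (m : ℕ) (hm : 1 ≤ m) :
    ∃ g : UnitAddCircle → UnitAddCircle, Measurable g ∧ ∀ z, m • g z = z := by
  refine ⟨fun z => (((AddCircle.measurableEquivIoc (1 : ℝ) 0 z : ℝ) / m : ℝ) : UnitAddCircle),
    ?_, ?_⟩
  · refine (AddCircle.measurable_mk' (a := (1 : ℝ))).comp ?_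
    refine Measurable.div_const ?_ _
    exact measurable_subtype_coe.comp (AddCircle.measurableEquivIoc (1 : ℝ) 0).measurable
  · intro z
    rw [← AddCircle.coe_nsmul]
    have : (m • ((AddCircle.measurableEquivIoc (1 : ℝ) 0 z : ℝ) / m) : ℝ) =
        (AddCircle.measurableEquivIoc (1 : ℝ) 0 z : ℝ) := by
      rw [nsmul_eq_mul]
      field_simp
    rw [this]
    exact (AddCircle.equivIoc (1 : ℝ) 0).symm_apply_apply z

theorem exists_section (hCO : L_CO) (k D x : ℕ) (hD : 1 ≤ D) :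
    ∃ s : X k → X k, Measurable s ∧ ∀ w, phi D x (s w) = w := by
  obtain ⟨hc, hs, -⟩ := rMP k 1 x le_rfl
  have hker := hCO.2.2.2.1 k 1 x le_rfl
  have hinj : Function.Injective (phi 1 x : X k → X k) := by
    intro a b hab
    have h0 : phi 1 x (a - b) = 0 := by rw [map_sub, hab, sub_self]
    have h1 : (a - b) ∈ Kr k 1 x := (hker.2 _).2 h0
    have h2 : (0 : X k) ∈ Kr k 1 x := (hker.2 _).2 (map_zero _)
    have hcard : (Kr k 1 x).card = 1 := by rw [hker.1, one_pow]
    have := Finset.card_le_one.1 hcard.le _ h1 _ h2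
    exact sub_eq_zero.1 this
  let E : X k ≃ X k := Equiv.ofBijective _ ⟨hinj, hs⟩
  have hEc : Continuous E := hc
  let U : X k ≃ₜ X k := hEc.homeoOfEquivCompactToT2
  have hUa : ∀ a, phi 1 x (U.symm a) = a := fun a => U.apply_symm_apply a
  choose g hg hgm using fun i : Fin k => exists_div (D ^ (i.val + 1)) (Nat.one_le_pow _ _ hD)
  refine ⟨fun w => U.symm (fun i => g i (w i)), ?_, ?_⟩
  · refine U.symm.continuous.measurable.comp ?_
    exact measurable_pi_lambda _ fun i => (hg i).comp (measurable_pi_apply i)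
  · intro w
    funext i
    rw [phi_diag, hUa]
    exact hgm i (w i)

/-- the sum over the kernel is invariant -/
theorem Kr_shift (hCO : L_CO) {k D x : ℕ} (hD : 1 ≤ D) {M : Type*} [AddCommMonoid M]
    (F : X k → M) (a b : X k) (h : phi D x a = phi D x b) :
    ∑ κ ∈ Kr k D x, F (a + κ) = ∑ κ ∈ Kr k D x, F (b + κ) := by
  have hker := hCO.2.2.2.1 k D x hD
  refine Finset.sum_bij' (fun κ _ => a - b + κ) (fun κ _ => b - a + κ) ?_ ?_ ?_ ?_ ?_
  · intro κ hκ
    rw [hker.2] at hκ ⊢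
    rw [map_add, map_sub, h, sub_self, zero_add, hκ]
  · intro κ hκ
    rw [hker.2] at hκ ⊢
    rw [map_add, map_sub, h, sub_self, zero_add, hκ]
  · intro κ _
    abel
  · intro κ _
    abel
  · intro κ _
    congr 1
    abel

theorem pf_SC (hCO : L_CO) (hAI : L_AI) : L_SC := by
  intro k D x hD
  obtain ⟨s, hs, hsw⟩ := exists_section hCO k D x hD
  refine ⟨s, hs, hsw, ?_⟩
  intro F B hF hB
  obtain ⟨hcard, hker⟩ := hCO.2.2.2.1 k D x hD
  obtain ⟨hc, -, hmp⟩ := rMP k D x hD
  have hne : (Kr k D x).Nonempty := ⟨0, (hker _).2 (map_zero _)⟩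
  have h1 := hAI k (Kr k D x) F B hne hF hB
  have hD0 : (0 : ℝ) < (D : ℝ) ^ (KN k) := by
    have : (0 : ℝ) < D := by exact_mod_cast hD
    positivity
  have hcr : ((Kr k D x).card : ℝ) = (D : ℝ) ^ (KN k) := by rw [hcard]; push_cast; ring
  rw [hcr] at h1
  rw [h1, ← mul_assoc, mul_one_div_cancel hD0.ne', one_mul]
  have hFb : Measurable fun w => ∑ κ ∈ Kr k D x, F (s w + κ) := by
    refine Finset.measurable_sum _ fun κ _ => hF.comp ?_
    exact hs.add_const κ
  have h2 : ∀ a : X k, ∑ κ ∈ Kr k D x, F (a + κ) =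
      (fun w => ∑ κ ∈ Kr k D x, F (s w + κ)) (phi D x a) := by
    intro a
    exact Kr_shift hCO hD F a _ (hsw _).symm
  rw [integral_congr_ae (Filter.Eventually.of_forall h2)]
  rw [← integral_map (f := fun w => ∑ κ ∈ Kr k D x, F (s w + κ)) hc.measurable.aemeasurable]
  · rw [hmp.map_eq]
  · exact hFb.aestronglyMeasurable

end Pool.Agent.H56.LVP
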