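import Pool.Agent.H56.LVP.StarB

/-!
# ST: the mass of the stars as an integral over the points (helper56)
-/

set_option autoImplicit false

open Finset MeasureTheory

namespace Pool.Agent.H56.LVP

open Pool.Agent.H24.CL Pool.Agent.H24.LV

theorem KN_ge {k : ℕ} (hk : 3 ≤ k) : k ≤ KN k := by
  unfold KN
  rw [Nat.le_div_iff_mul_le (by norm_num)]
  nlinarith

theorem pow_KN {k D : ℕ} (hk : 3 ≤ k) :
    (D : ℝ) ^ (KN k) = (D : ℝ) ^ k * (D : ℝ) ^ (KN k - k) := by
  rw [← pow_add, Nat.add_sub_cancel' (KN_ge hk)]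

theorem phi_meas {k : ℕ} (D x : ℕ) (hD : 1 ≤ D) : Measurable (phi D x : X k → X k) :=
  (rMP k D x hD).1.measurable

theorem Star_meas {k : ℕ} {S : Finset ℕ} (hS : ∀ p ∈ S, p.Prime) {V : Set (X k)}
    {Gd : ℕ → Set (X k)} (hV : MeasurableSet V) (hG : ∀ p ∈ S, MeasurableSet (Gd p)) (x : ℕ) :
    MeasurableSet {b : X k | Star S V Gd b x} := by
  have h : {b : X k | Star S V Gd b x} = (phi (DS S) x) ⁻¹' V ∩
      ⋂ p ∈ S, (phi (DS S / p) (x % (DS S / p))) ⁻¹' (Gd p) := by
    ext b
    simp only [Set.mem_inter_iff, Set.mem_preimage, Set.mem_iInter]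
    exact Iff.rfl
  rw [h]
  refine (phi_meas _ _ (DS_pos hS) hV).inter ?_
  refine Finset.measurableSet_biInter S fun p hp => ?_
  refine phi_meas _ _ ?_ (hG p hp)
  rw [(DS_div hS hp).2]
  exact Finset.prod_pos fun q hq => (hS q (Finset.mem_of_mem_erase hq)).pos

theorem nn_meas {k p y : ℕ} {W : Set (X k)} (hW : MeasurableSet W) {s : X k → X k}
    (hs : Measurable s) : Measurable fun w => nn k p y W (s w) := by
  classical
  unfold nn
  refine Finset.measurable_sum _ fun κ _ => ?_
  refine Measurable.ite ?_ measurable_const measurable_const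
  exact (hs.add_const κ) hW

open Classical in
theorem pf_ST (hSC : L_SC) (hCT : L_CT) (hCO : L_CO) : L_ST := by
  intro k Q V Gd ν hk hν hQ hV hG hinv hcnt
  have hex : ∀ p x : ℕ, ∃ s : X k → X k, p ∈ Q → (Measurable s ∧ (∀ w, phi p x (s w) = w) ∧
      ∀ (F : X k → ℝ) (B : ℝ), Measurable F → (∀ a, |F a| ≤ B) →
      (p : ℝ) ^ (KN k) * ∫ a, F a = ∫ w, ∑ κ ∈ Kr k p x, F (s w + κ)) := by
    intro p x
    by_cases hp : p ∈ Q
    · obtain ⟨s, h⟩ := hSC k p x (hQ p hp).one_le
      exact ⟨s, fun _ => h⟩
    · exact ⟨id, fun h => absurd h hp⟩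
  choose s hs using hex
  have hν0 : (0 : ℝ) ≤ ν := zero_le_one.trans hν
  refine ⟨fun p x w => if p ∈ Q then nn k p x (Gd p) (s p x w) / (p : ℝ) ^ k else 0, ?_, ?_, ?_, ?_⟩
  · intro p x
    by_cases hp : p ∈ Q
    · simp only [if_pos hp]
      exact (nn_meas (hG p hp) (hs p x hp).1).div_const _
    · simp only [if_neg hp]
      exact measurable_const
  · intro p x w
    by_cases hp : p ∈ Q
    · simp only [if_pos hp]
      have hp0 : (0 : ℝ) < (p : ℝ) ^ k := by
        have : (0 : ℝ) < p := by exact_mod_cast (hQ p hp).pos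
        positivity
      refine ⟨div_nonneg nn_nonneg hp0.le, ?_⟩
      rw [div_le_iff₀ hp0, mul_comm]
      exact nn_le hCO (hQ p hp).one_le (hinv p hp) (hcnt p hp) _
    · simp only [if_neg hp]
      exact ⟨le_rfl, hν0⟩
  · intro p hp x hx F B hF hB
    simp only [if_pos hp]
    obtain ⟨hsm, hsw, hsi⟩ := hs p x hp
    have hp1 : 1 ≤ p := (hQ p hp).one_le
    have hp0 : (0 : ℝ) < (p : ℝ) ^ k := by
      have : (0 : ℝ) < p := by exact_mod_cast (hQ p hp).pos
      positivity
    obtain ⟨-, hker⟩ := hCO.2.2.2.1 k p x hp1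
    have h1 := hsi ((Gd p).indicator fun a => F (phi p x a)) B
      ((hF.comp (phi_meas p x hp1)).indicator (hG p hp)) (by
        intro a
        by_cases ha : a ∈ Gd p
        · rw [Set.indicator_of_mem ha]
          exact hB _
        · rw [Set.indicator_of_notMem ha, abs_zero]
          exact (abs_nonneg _).trans (hB 0))
    rw [integral_indicator (hG p hp), pow_KN hk] at h1
    have h2 : ∀ w, ∑ κ ∈ Kr k p x, (Gd p).indicator (fun a => F (phi p x a)) (s p x w + κ) =
        F w * nn k p x (Gd p) (s p x w) := by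
      intro w
      unfold nn
      rw [Finset.mul_sum]
      refine Finset.sum_congr rfl fun κ hκ => ?_
      have hk0 := (hker κ).1 hκ
      by_cases ha : s p x w + κ ∈ Gd p
      · rw [Set.indicator_of_mem ha, if_pos ha, map_add, hsw, hk0, add_zero, mul_one]
      · rw [Set.indicator_of_notMem ha, if_neg ha, mul_zero]
    rw [integral_congr_ae (Filter.Eventually.of_forall h2)] at h1
    have h3 : ∀ w, F w * (nn k p x (Gd p) (s p x w) / (p : ℝ) ^ k) =
        (F w * nn k p x (Gd p) (s p x w)) * ((p : ℝ) ^ k)⁻¹ := by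
      intro w
      rw [div_eq_mul_inv, mul_assoc]
    rw [integral_congr_ae (Filter.Eventually.of_forall h3), integral_mul_const, ← h1]
    field_simp
  · intro S hSQ x hx
    have hS : ∀ p ∈ S, p.Prime := fun p hp => hQ p (hSQ hp)
    have hD := DS_pos hS
    have hD0 : (0 : ℝ) < (DS S : ℝ) ^ k := by
      have : (0 : ℝ) < DS S := by exact_mod_cast hD
      positivity
    obtain ⟨t, htm, htw, hti⟩ := hSC k (DS S) x hD
    have hmS := Star_meas hS hV (fun p hp => hG p (hSQ hp)) x
    obtain ⟨-, hker⟩ := hCO.2.2.2.1 k (DS S) x hD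
    have h1 := hti ({b : X k | Star S V Gd b x}.indicator fun _ => 1) 1
      (measurable_const.indicator hmS) (by
        intro a
        by_cases ha : a ∈ {b : X k | Star S V Gd b x}
        · rw [Set.indicator_of_mem ha, abs_one]
        · rw [Set.indicator_of_notMem ha, abs_zero]
          norm_num)
    rw [integral_indicator hmS, setIntegral_const, smul_eq_mul, mul_one, pow_KN hk] at h1
    have h2 : ∀ w, ∑ κ ∈ Kr k (DS S) x, ({b : X k | Star S V Gd b x}.indicator
        (fun _ => (1 : ℝ))) (t w + κ) = V.indicator (fun w => (DS S : ℝ) ^ k *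
          ∏ p ∈ S, (if p ∈ Q then nn k p (x / (DS S / p)) (Gd p) (s p (x / (DS S / p)) w) /
            (p : ℝ) ^ k else 0)) w := by
      intro w
      by_cases hw : w ∈ V
      · rw [Set.indicator_of_mem hw]
        have h3 : ∀ κ ∈ Kr k (DS S) x, ({b : X k | Star S V Gd b x}.indicator
            (fun _ => (1 : ℝ))) (t w + κ) =
            if (∀ p ∈ S, phi (DS S / p) (x % (DS S / p)) (t w + κ) ∈ Gd p) then 1 else 0 := by
          intro κ hκ
          have h4 : phi (DS S) x (t w + κ) = w := by
            rw [map_add, htw, (hker κ).1 hκ, add_zero]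
          by_cases hall : ∀ p ∈ S, phi (DS S / p) (x % (DS S / p)) (t w + κ) ∈ Gd p
          · rw [if_pos hall, Set.indicator_of_mem]
            exact ⟨by rw [h4]; exact hw, hall⟩
          · rw [if_neg hall, Set.indicator_of_notMem]
            intro h
            exact hall h.2
        rw [Finset.sum_congr rfl h3, star_count hCO hS]
        have h5 : ∀ p ∈ S, (if p ∈ Q then nn k p (x / (DS S / p)) (Gd p)
            (s p (x / (DS S / p)) w) / (p : ℝ) ^ k else 0) =
            nn k p (x / (DS S / p)) (Gd p) (phi (DS S / p) (x % (DS S / p)) (t w)) *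
              ((p : ℝ) ^ k)⁻¹ := by
          intro p hp
          rw [if_pos (hSQ hp), div_eq_mul_inv]
          congr 1
          refine nn_shift hCO (hS p hp).one_le _ _ _ ?_
          rw [(hs p _ (hSQ hp)).2.1, phi_comp hCO hS hp, htw]
        rw [Finset.prod_congr rfl h5, Finset.prod_mul_distrib]
        have h6 : ∏ p ∈ S, ((p : ℝ) ^ k)⁻¹ = ((DS S : ℝ) ^ k)⁻¹ := by
          rw [Finset.prod_inv_distrib, Finset.prod_pow, DS]
          push_cast
          rfl
        rw [h6]
        field_simp
      · rw [Set.indicator_of_notMem hw]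
        refine Finset.sum_eq_zero fun κ hκ => ?_
        rw [Set.indicator_of_notMem]
        intro h
        apply hw
        have h4 : phi (DS S) x (t w + κ) = w := by
          rw [map_add, htw, (hker κ).1 hκ, add_zero]
        rw [← h4]
        exact h.1
    rw [integral_congr_ae (Filter.Eventually.of_forall h2), integral_indicator hV,
      integral_const_mul] at h1
    have h7 := mul_left_cancel₀ hD0.ne' ((mul_assoc _ _ _).symm.trans h1)
    exact h7

end Pool.Agent.H56.LVP
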