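import Pool.Agent.H56.LVP.SC

/-!
# Stars: the bijection of kernels and the counting lemma (helper56)
-/

set_option autoImplicit false

open Finset MeasureTheory

namespace Pool.Agent.H56.LVP

open Pool.Agent.H24.CL Pool.Agent.H24.LV

theorem DS_pos {S : Finset ℕ} (hS : ∀ p ∈ S, p.Prime) : 0 < DS S :=
  Finset.prod_pos fun p hp => (hS p hp).pos

theorem DS_div {S : Finset ℕ} (hS : ∀ p ∈ S, p.Prime) {p : ℕ} (hp : p ∈ S) :
    p * (DS S / p) = DS S ∧ DS S / p = ∏ q ∈ S.erase p, q := by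
  have h : DS S = p * ∏ q ∈ S.erase p, q := (Finset.mul_prod_erase S (fun q => q) hp).symm
  have h2 : DS S / p = ∏ q ∈ S.erase p, q := by
    rw [h, Nat.mul_div_cancel_left _ (hS p hp).pos]
  exact ⟨by rw [h2, ← h], h2⟩

/-- composition of the two parts of a position -/
theorem phi_comp (hCO : L_CO) {S : Finset ℕ} (hS : ∀ p ∈ S, p.Prime) {p : ℕ} (hp : p ∈ S) {k : ℕ}
    (x : ℕ) (a : X k) :
    phi p (x / (DS S / p)) (phi (DS S / p) (x % (DS S / p)) a) = phi (DS S) x a := by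
  rw [hCO.1]
  congr 2
  · rw [(DS_div hS hp).1]
  · exact Nat.mod_add_div x (DS S / p)

/-- the bijection of the kernels -/
theorem Kr_bij (hCO : L_CO) {S : Finset ℕ} (hS : ∀ p ∈ S, p.Prime) {k : ℕ} (x : ℕ) :
    ∀ F : (S → X k) → ℝ, ∑ κ ∈ Kr k (DS S) x, F (fun p => phi (DS S / p.1) (x % (DS S / p.1)) κ) =
      ∑ g ∈ Fintype.piFinset (fun p : S => Kr k p.1 (x / (DS S / p.1))), F g := by
  intro F
  have hD := DS_pos hS
  obtain ⟨hcD, hkD⟩ := hCO.2.2.2.1 k (DS S) x hD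
  have hinj : Set.InjOn (fun (κ : X k) => (fun p : S => phi (DS S / p.1) (x % (DS S / p.1)) κ))
      (Kr k (DS S) x : Set (X k)) := by
    intro κ hκ κ' hκ' h
    have hκ2 := (hkD _).1 (Finset.mem_coe.1 hκ)
    have hκ2' := (hkD _).1 (Finset.mem_coe.1 hκ')
    have h0 : phi (DS S) x (κ - κ') = 0 := by rw [map_sub, hκ2, hκ2', sub_self]
    have h1 : ∀ p ∈ S, phi (DS S / p) (x % (DS S / p)) (κ - κ') = 0 := by
      intro p hp
      rw [map_sub, sub_eq_zero]
      exact congrFun h ⟨p, hp⟩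
    have hord : addOrderOf (κ - κ') = 1 := by
      by_contra hne
      obtain ⟨r, hr, hrd⟩ := Nat.exists_prime_and_dvd hne
      have hk0 : (κ - κ') ∈ H k (DS S) k := (rKC k (DS S) x hD).2 h0
      have hk1 : (DS S ^ k) • (κ - κ') = 0 := hk0
      have hrD : r ∣ DS S := hr.dvd_of_dvd_pow (hrd.trans (addOrderOf_dvd_of_nsmul_eq_zero hk1))
      obtain ⟨p, hp, hrp⟩ := (Prime.dvd_finset_prod_iff hr.prime _).1 hrD
      have hrp' : r = p := (Nat.prime_dvd_prime_iff_eq hr (hS p hp)).1 hrp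
      have hpos : 0 < DS S / p := by
        rw [(DS_div hS hp).2]
        exact Finset.prod_pos fun q hq => (hS q (Finset.mem_of_mem_erase hq)).pos
      have hk2 : (κ - κ') ∈ H k (DS S / p) k :=
        (rKC k (DS S / p) (x % (DS S / p)) hpos).2 (h1 p hp)
      have hk3 : ((DS S / p) ^ k) • (κ - κ') = 0 := hk2
      have hrE : r ∣ DS S / p :=
        hr.dvd_of_dvd_pow (hrd.trans (addOrderOf_dvd_of_nsmul_eq_zero hk3))
      rw [(DS_div hS hp).2] at hrE
      obtain ⟨q, hq, hrq⟩ := (Prime.dvd_finset_prod_iff hr.prime _).1 hrE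
      have hrq' : r = q :=
        (Nat.prime_dvd_prime_iff_eq hr (hS q (Finset.mem_of_mem_erase hq))).1 hrq
      exact (Finset.ne_of_mem_erase hq) (hrq'.symm.trans hrp')
    exact sub_eq_zero.1 (AddMonoid.addOrderOf_eq_one_iff.1 hord)
  have hmaps : ∀ κ ∈ Kr k (DS S) x,
      (fun p : S => phi (DS S / p.1) (x % (DS S / p.1)) κ) ∈
        Fintype.piFinset (fun p : S => Kr k p.1 (x / (DS S / p.1))) := by
    intro κ hκ
    rw [Fintype.mem_piFinset]
    intro p
    rw [(hCO.2.2.2.1 k p.1 (x / (DS S / p.1)) (hS p.1 p.2).one_le).2, phi_comp hCO hS p.2]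
    exact (hkD _).1 hκ
  have himg : (Kr k (DS S) x).image
      (fun (κ : X k) => (fun p : S => phi (DS S / p.1) (x % (DS S / p.1)) κ)) =
        Fintype.piFinset (fun p : S => Kr k p.1 (x / (DS S / p.1))) := by
    refine Finset.eq_of_subset_of_card_le ?_ ?_
    · intro g hg
      obtain ⟨κ, hκ, rfl⟩ := Finset.mem_image.1 hg
      exact hmaps κ hκ
    · rw [Finset.card_image_of_injOn hinj, hcD, Fintype.card_piFinset]
      have : ∀ p : S, (Kr k p.1 (x / (DS S / p.1))).card = p.1 ^ (KN k) := fun p =>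
        (hCO.2.2.2.1 k p.1 (x / (DS S / p.1)) (hS p.1 p.2).one_le).1
      rw [Finset.prod_congr rfl fun p _ => this p, Finset.prod_pow]
      refine le_of_eq ?_
      congr 1
      rw [DS, Finset.prod_coe_sort S (fun p => p)]
  rw [← himg, Finset.sum_image hinj]

open Classical in
/-- the number of the `κ` in the kernel of `phi p y` with `c + κ ∈ W` -/
noncomputable def nn (k p y : ℕ) (W : Set (X k)) (c : X k) : ℝ :=
  ∑ κ ∈ Kr k p y, if c + κ ∈ W then (1 : ℝ) else 0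

theorem nn_nonneg {k p y : ℕ} {W : Set (X k)} {c : X k} : 0 ≤ nn k p y W c :=
  Finset.sum_nonneg fun κ _ => by split_ifs <;> norm_num

theorem nn_shift (hCO : L_CO) {k p y : ℕ} (hp : 1 ≤ p) (W : Set (X k)) (a b : X k)
    (h : phi p y a = phi p y b) : nn k p y W a = nn k p y W b := by
  classical
  exact Kr_shift hCO hp (fun z => if z ∈ W then (1 : ℝ) else 0) a b h

open Classical in
theorem star_count (hCO : L_CO) {S : Finset ℕ} (hS : ∀ p ∈ S, p.Prime) {k : ℕ} (x : ℕ)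
    (Gd : ℕ → Set (X k)) (c : X k) :
    (∑ κ ∈ Kr k (DS S) x, if (∀ p ∈ S, phi (DS S / p) (x % (DS S / p)) (c + κ) ∈ Gd p) then
      (1 : ℝ) else 0) =
      ∏ p ∈ S, nn k p (x / (DS S / p)) (Gd p) (phi (DS S / p) (x % (DS S / p)) c) := by
  have h1 := Kr_bij hCO hS (k := k) x
    (fun g => ∏ p : S, if phi (DS S / p.1) (x % (DS S / p.1)) c + g p ∈ Gd p.1 then (1 : ℝ) else 0)
  have h2 := Finset.prod_univ_sum (fun p : S => Kr k p.1 (x / (DS S / p.1)))
    (fun (p : S) (z : X k) => if phi (DS S / p.1) (x % (DS S / p.1)) c + z ∈ Gd p.1 then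
      (1 : ℝ) else 0)
  rw [← Finset.prod_coe_sort S
    (fun p => nn k p (x / (DS S / p)) (Gd p) (phi (DS S / p) (x % (DS S / p)) c))]
  unfold nn
  rw [h2, ← h1]
  refine Finset.sum_congr rfl fun κ _ => ?_
  by_cases hall : ∀ p ∈ S, phi (DS S / p) (x % (DS S / p)) (c + κ) ∈ Gd p
  · rw [if_pos hall]
    symm
    refine Finset.prod_eq_one fun p _ => ?_
    rw [if_pos]
    have := hall p.1 p.2
    rwa [map_add] at this
  · rw [if_neg hall]
    symm
    push Not at hall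
    obtain ⟨p, hp, hpn⟩ := hall
    refine Finset.prod_eq_zero (Finset.mem_univ (⟨p, hp⟩ : S)) ?_
    rw [if_neg]
    rwa [map_add] at hpn

theorem nn_le {k p y : ℕ} (hCO : L_CO) (hp : 1 ≤ p) {W : Set (X k)} {ν : ℝ}
    (hinv : ∀ a ∈ W, ∀ h ∈ H k p 1, a + h ∈ W) (hc : CntM (H k p k) (H k p 1) W ν) (c : X k) :
    nn k p y W c ≤ (p : ℝ) ^ k * ν := by
  classical
  obtain ⟨hcard, hker⟩ := hCO.2.2.2.1 k p y hp
  set Z : Finset (X k) := ((Kr k p y).filter fun κ => c + κ ∈ W).image fun κ => c + κ with hZ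
  have hnn : nn k p y W c = (Z.card : ℝ) := by
    unfold nn
    rw [Finset.sum_ite, Finset.sum_const_zero, add_zero, Finset.sum_const, nsmul_eq_mul, mul_one,
      hZ, Finset.card_image_of_injective _ (add_right_injective c)]
  rw [hnn]
  have hZW : ∀ z ∈ Z, z ∈ W := by
    intro z hz
    obtain ⟨κ, hκ, rfl⟩ := Finset.mem_image.1 hz
    exact (Finset.mem_filter.1 hκ).2
  have hZd : ∀ z ∈ Z, ∀ z' ∈ Z, z - z' ∈ H k p k := by
    intro z hz z' hz'
    obtain ⟨κ, hκ, rfl⟩ := Finset.mem_image.1 hz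
    obtain ⟨κ', hκ', rfl⟩ := Finset.mem_image.1 hz'
    have h1 := (hker _).1 (Finset.mem_filter.1 hκ).1
    have h2 := (hker _).1 (Finset.mem_filter.1 hκ').1
    refine (rKC k p y hp).2 ?_
    show phi p y (c + κ - (c + κ')) = 0
    rw [map_sub, map_add, map_add, h1, h2]
    simp
  let f : X k → X k ⧸ H k p 1 := fun z => (QuotientAddGroup.mk z)
  have hf : ∀ z z' : X k, f z = f z' ↔ z - z' ∈ H k p 1 := by
    intro z z'
    show ((z : X k ⧸ H k p 1) = (z' : X k ⧸ H k p 1)) ↔ _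
    rw [QuotientAddGroup.eq_iff_sub_mem]
  have h1 : Z.card ≤ p ^ k * (Z.image f).card := by
    refine Finset.card_le_mul_card_image Z (p ^ k) ?_
    intro w hw
    obtain ⟨z0, hz0, rfl⟩ := Finset.mem_image.1 hw
    have hHF : (HF k p 1).card = p ^ (1 * k) := (rTO k p hp).2.2.1 1
    rw [one_mul] at hHF
    rw [← hHF]
    refine Finset.card_le_card_of_injOn (fun z => z - z0) ?_ ?_
    · intro z hz
      have hz2 := (Finset.mem_filter.1 (Finset.mem_coe.1 hz)).2
      exact Finset.mem_coe.2 (((rTO k p hp).2.1 1 _).2 ((hf _ _).1 hz2))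
    · intro z _ z' _ h
      exact sub_left_injective h
  have h2 : ((Z.image f).card : ℝ) ≤ ν := by
    have hch : ∀ w ∈ Z.image f, ∃ z ∈ Z, f z = w := fun w hw => Finset.mem_image.1 hw
    choose! g hg1 hg2 using hch
    have hgi : Set.InjOn g (Z.image f : Set (X k ⧸ H k p 1)) := by
      intro w hw w' hw' h
      rw [← hg2 w (Finset.mem_coe.1 hw), ← hg2 w' (Finset.mem_coe.1 hw'), h]
    rw [← Finset.card_image_of_injOn hgi]
    refine hc _ ?_ ?_ ?_
    · intro y hy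
      obtain ⟨w, hw, rfl⟩ := Finset.mem_image.1 hy
      exact hZW _ (hg1 w hw)
    · intro y hy y' hy'
      obtain ⟨w, hw, rfl⟩ := Finset.mem_image.1 hy
      obtain ⟨w', hw', rfl⟩ := Finset.mem_image.1 hy'
      exact hZd _ (hg1 w hw) _ (hg1 w' hw')
    · intro y hy y' hy' h
      obtain ⟨w, hw, rfl⟩ := Finset.mem_image.1 hy
      obtain ⟨w', hw', rfl⟩ := Finset.mem_image.1 hy'
      have : f (g w) = f (g w') := (hf _ _).2 h
      rw [hg2 w hw, hg2 w' hw'] at this
      rw [this]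
  have h3 : (Z.card : ℝ) ≤ (p : ℝ) ^ k * ((Z.image f).card : ℝ) := by exact_mod_cast h1
  refine h3.trans ?_
  have : (0 : ℝ) ≤ (p : ℝ) ^ k := by positivity
  exact mul_le_mul_of_nonneg_left h2 this

end Pool.Agent.H56.LVP
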